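import Pool.Agent.L0h20.AS.Defs

set_option autoImplicit false

/-!
# The counting principle has depth at most three and no MOD gates
-/

namespace Pool.Agent.L0h20.AS

open Pool.Agent.L0h36.BG

variable {p : ℕ} {α : Type}

theorem sdepth_orL_le {S : Set (Fml p α)} {l : List (Fml p α)} {a : ℕ}
    (h : ∀ φ ∈ l, sdepth S φ ≤ a) : sdepth S (Pool.Agent.L0h36.BG.orL l) ≤ a + 1 := by
  unfold Pool.Agent.L0h36.BG.orL
  rw [sdepth]
  split_ifs
  · omega
  · apply max_le (by omega)
    apply Finset.sup_le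
    intro j _
    have := h _ (List.get_mem l j)
    split_ifs <;> omega

theorem sdepth_andL_le {S : Set (Fml p α)} {l : List (Fml p α)} {a : ℕ}
    (h : ∀ φ ∈ l, sdepth S φ ≤ a) : sdepth S (Pool.Agent.L0h36.BG.andL l) ≤ a + 1 := by
  unfold Pool.Agent.L0h36.BG.andL
  rw [sdepth]
  split_ifs
  · omega
  · apply max_le (by omega)
    apply Finset.sup_le
    intro j _
    have := h _ (List.get_mem l j)
    split_ifs <;> omega

theorem sdepth_countFml (p q n : ℕ) (S : Set (Fml p (Finset (Fin n)))) :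
    sdepth S (countFml p q n) ≤ 3 := by
  unfold countFml
  apply sdepth_orL_le
  intro φ hφ
  rw [List.mem_append, List.mem_map, List.mem_map] at hφ
  rcases hφ with ⟨v, -, rfl⟩ | ⟨ef, -, rfl⟩
  · unfold uncovered
    apply sdepth_andL_le
    intro ψ hψ
    rw [List.mem_map] at hψ
    obtain ⟨e, -, rfl⟩ := hψ
    rw [sdepth]
    split_ifs with h1 h2
    · omega
    · rw [sdepth]
      omega
    · rw [sdepth]
  · unfold clash
    refine (sdepth_andL_le (a := 0) ?_).trans (by omega)
    intro ψ hψ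
    rw [List.mem_cons, List.mem_singleton] at hψ
    rcases hψ with rfl | rfl <;> rw [sdepth]

theorem mem_subs_orL {l : List (Fml p α)} {ψ : Fml p α}
    (h : ψ ∈ (Pool.Agent.L0h36.BG.orL l).subs) :
    ψ = Pool.Agent.L0h36.BG.orL l ∨ ∃ φ ∈ l, ψ ∈ φ.subs := by
  rcases h with h | h
  · exact Or.inl h
  · obtain ⟨j, hj⟩ := Set.mem_iUnion.1 h
    exact Or.inr ⟨_, List.get_mem l j, hj⟩

theorem mem_subs_andL {l : List (Fml p α)} {ψ : Fml p α}
    (h : ψ ∈ (Pool.Agent.L0h36.BG.andL l).subs) :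
    ψ = Pool.Agent.L0h36.BG.andL l ∨ ∃ φ ∈ l, ψ ∈ φ.subs := by
  rcases h with h | h
  · exact Or.inl h
  · obtain ⟨j, hj⟩ := Set.mem_iUnion.1 h
    exact Or.inr ⟨_, List.get_mem l j, hj⟩

theorem no_mod_countFml (p q n : ℕ) (i : ZMod p) (m : ℕ)
    (f : Fin m → Fml p (Finset (Fin n))) : Fml.mod i m f ∉ (countFml p q n).subs := by
  intro h
  unfold countFml at h
  rcases mem_subs_orL h with h | ⟨φ, hφ, h⟩
  · cases h
  rw [List.mem_append, List.mem_map, List.mem_map] at hφ
  rcases hφ with ⟨v, -, rfl⟩ | ⟨ef, -, rfl⟩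
  · unfold uncovered at h
    rcases mem_subs_andL h with h | ⟨φ, hφ, h⟩
    · cases h
    · rw [List.mem_map] at hφ
      obtain ⟨e, -, rfl⟩ := hφ
      rcases h with h | h
      · cases h
      · have h' : Fml.mod i m f = Fml.var e := h
        cases h'
  · unfold clash at h
    rcases mem_subs_andL h with h | ⟨φ, hφ, h⟩
    · cases h
    · rw [List.mem_cons, List.mem_singleton] at hφ
      rcases hφ with rfl | rfl
      · have h' : Fml.mod i m f = Fml.var ef.1 := h
        cases h'
      · have h' : Fml.mod i m f = Fml.var ef.2 := h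
        cases h'

end Pool.Agent.L0h20.AS
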