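import Pool.Agent.L0h20.SY.Defs

set_option autoImplicit false

/-!
# Bounded-depth formulas over symmetric formulas
-/

namespace Pool.Agent.L0h20.AS

open Pool.Agent.L0h36.BG

open Classical in
/-- The depth of the part of the formula above the formulas of the set `S`: the maximal number of
connectives on a path from the root to a variable or to a member of `S` (which is not counted), where
consecutive negations, consecutive conjunctions and consecutive disjunctions are merged. -/
noncomputable def sdepth {p : ℕ} {α : Type} (S : Set (Fml p α)) : Fml p α → ℕ
  | .var _ => 0
  | .neg φ => if Fml.neg φ ∈ S then 0 else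
      if φ.isNeg = true ∧ φ ∉ S then sdepth S φ else sdepth S φ + 1
  | .and k f => if Fml.and k f ∈ S then 0 else max 1 (Finset.univ.sup fun j =>
      if (f j).isAnd = true ∧ f j ∉ S then sdepth S (f j) else sdepth S (f j) + 1)
  | .or k f => if Fml.or k f ∈ S then 0 else max 1 (Finset.univ.sup fun j =>
      if (f j).isOr = true ∧ f j ∉ S then sdepth S (f j) else sdepth S (f j) + 1)
  | .mod i k f => if Fml.mod i k f ∈ S then 0 else (Finset.univ.sup fun j => sdepth S (f j)) + 1

end Pool.Agent.L0h20.AS
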