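import Pool.Agent.L0h20.AS.Stm
import Pool.Agent.L0h20.SY.Closed

set_option autoImplicit false

/-!
# The lower bound with real exponents
-/

namespace Pool.Agent.L0h20.AS

open Pool.Agent.L0h36.BG Pool.Agent.L0h20.SY

theorem subset_AtK {p n k : ℕ} (hn : 4 * (k + 1) ^ 2 ≤ n) {M : ℝ}
    (hM : M ≤ ((2 ^ (k + 1) : ℕ) : ℝ)) {S : Set (Fml p (Finset (Fin n)))}
    (hS : ∀ φ ∈ S, φ.subs ⊆ S) (hS2 : ∀ φ ∈ S, ¬ ManyImages Finset.univ M φ) :
    S ⊆ AtK p n k := by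
  intro φ hφ ψ hψ
  obtain ⟨B, -, h2, h3⟩ := exists_sup (W := Finset.univ) (k := k) h_CNT h_STEP
    (by rw [Finset.card_univ, Fintype.card_fin]; exact hn) ψ (fun χ hχ => by
      apply not_manyIm_of
      rintro ⟨s, h1, h2, h3⟩
      exact hS2 χ (hS φ hφ (subs_trans hψ hχ)) ⟨s, hM.trans h1, h2, h3⟩)
  exact ⟨B, h2, h3⟩

theorem final (hPRM : S_PRM) (p : ℕ) (hp : p.Prime) (q : ℕ) (hq : 2 ≤ q) (hpq : p.Coprime q)
    (d : ℕ) : ∃ ε : ℝ, 0 < ε ∧ ∃ n₀ : ℕ, ∀ n ≥ n₀, ∀ L w : ℕ,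
      (L : ℝ) ≤ (n : ℝ) ^ ε → (w : ℝ) ≤ (n : ℝ) ^ ε →
      ∀ S : Set (Fml p (Finset (Fin n))), (∀ φ ∈ S, φ.subs ⊆ S) →
        (∀ φ ∈ S, ¬ ManyImages Finset.univ ((2 : ℝ) ^ ((n : ℝ) ^ ε)) φ) →
      ∀ π : List (Fml p (Finset (Fin n))), IsProof L π → (∀ A ∈ π, sdepth S A ≤ d) →
        (∀ i m f, Fml.mod i m f ∈ Occurring π → Fml.mod i m f ∈ S ∨ m ≤ w) →
        countFml p q n ∈ π → (2 : ℝ) ^ ((n : ℝ) ^ ε) ≤ ((Occurring π).ncard : ℝ) := by
  set R := Rx q d with hR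
  have hR6 : 6 ≤ R := by
    rw [hR]
    unfold Rx
    have h1 : 1 ≤ (q ^ 2 + 2) ^ d := Nat.one_le_pow _ _ (by omega)
    nlinarith
  have hRr : (0 : ℝ) < R := by
    have : 0 < R := by omega
    exact_mod_cast this
  refine ⟨1 / (2 * R), by positivity, (Cx p q d + 4 * q ^ 2 + 4) ^ R,
    fun n hn L w₀ hL hw₀ S hS hS2 π hπ hd hf hC => ?_⟩
  set C := Cx p q d + 4 * q ^ 2 with hCdef
  have hn1 : 1 ≤ n := le_trans (Nat.one_le_pow _ _ (by omega)) hn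
  have hn0 : (0 : ℝ) ≤ n := Nat.cast_nonneg n
  set z : ℝ := (n : ℝ) ^ (1 / (R : ℝ)) with hz
  have hz0 : 0 ≤ z := Real.rpow_nonneg hn0 _
  have hzR : z ^ R = n := by
    rw [hz, ← Real.rpow_natCast, ← Real.rpow_mul hn0, one_div, inv_mul_cancel₀ hRr.ne',
      Real.rpow_one]
  have hzC : ((C + 4 : ℕ) : ℝ) ≤ z := by
    by_contra h
    push Not at h
    have h1 : z ^ R < ((C + 4 : ℕ) : ℝ) ^ R := pow_lt_pow_left₀ h hz0 (by omega)
    rw [hzR] at h1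
    have h2 : n < (C + 4) ^ R := by exact_mod_cast h1
    omega
  have hz4 : (4 : ℝ) ≤ z := by
    refine le_trans ?_ hzC
    push_cast
    have : (0 : ℝ) ≤ C := Nat.cast_nonneg C
    linarith
  set w : ℝ := (n : ℝ) ^ (1 / (2 * (R : ℝ))) with hw
  have hwn : 0 ≤ w := Real.rpow_nonneg hn0 _
  have hwz : w ^ 2 = z := by
    rw [hw, hz, ← Real.rpow_natCast, ← Real.rpow_mul hn0]
    congr 1
    field_simp
    norm_num
  have hwz2 : w ≤ z / 2 := by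
    have h1 : 2 ≤ w := by
      by_contra h
      push Not at h
      nlinarith
    nlinarith
  set b := ⌊z⌋₊ with hb
  have hbz : (b : ℝ) ≤ z := Nat.floor_le hz0
  have hzb : z < b + 1 := Nat.lt_floor_add_one z
  have hwb : w ≤ b - 1 := by linarith
  have hbnR : (b : ℝ) ^ R ≤ n := by
    have h1 : (b : ℝ) ^ R ≤ z ^ R := pow_le_pow_left₀ (Nat.cast_nonneg b) hbz R
    rwa [hzR] at h1
  have hbn : b ^ R ≤ n := by exact_mod_cast hbnR
  have hbC : C ≤ b := by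
    have h1 : ((C + 4 : ℕ) : ℝ) < b + 1 := lt_of_le_of_lt hzC hzb
    have h2 : C + 4 < b + 1 := by exact_mod_cast h1
    omega
  have hb4 : 4 ≤ b := by
    have h1 : ((C + 4 : ℕ) : ℝ) < b + 1 := lt_of_le_of_lt hzC hzb
    have h2 : C + 4 < b + 1 := by exact_mod_cast h1
    omega
  have hLb : L + 1 ≤ b := by
    have h1 : (L : ℝ) + 1 ≤ b := by linarith
    exact_mod_cast h1
  have hw₀b : w₀ ≤ b := by
    have h1 : (w₀ : ℝ) ≤ b := by linarith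
    exact_mod_cast h1
  set k := ⌊w⌋₊ with hk
  have hkw : (k : ℝ) ≤ w := Nat.floor_le hwn
  have hwk : w < k + 1 := Nat.lt_floor_add_one w
  have hkb : k + 1 ≤ b := by
    have h1 : (k : ℝ) + 1 ≤ b := by linarith
    exact_mod_cast h1
  have hqk : 2 * q ≤ k := by
    rw [hk, Nat.le_floor_iff hwn]
    have h1 : ((4 * q ^ 2 : ℕ) : ℝ) ≤ z := by
      refine le_trans ?_ hzC
      exact_mod_cast (by omega : 4 * q ^ 2 ≤ C + 4)
    rw [← hwz] at h1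
    push_cast at h1 ⊢
    by_contra h
    push Not at h
    nlinarith
  have hkn : 4 * (k + 1) ^ 2 ≤ n := by
    have h0 : b ^ 6 ≤ b ^ R := Nat.pow_le_pow_right (by omega) hR6
    have h1 : (k + 1) ^ 2 ≤ b ^ 2 := Nat.pow_le_pow_left hkb 2
    have h2 : 4 * b ^ 2 ≤ b ^ 3 := by
      calc 4 * b ^ 2 ≤ b * b ^ 2 := Nat.mul_le_mul_right _ hb4
        _ = b ^ 3 := by ring
    have h3 : b ^ 3 ≤ b ^ 6 := Nat.pow_le_pow_right (by omega) (by omega)
    omega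
  have hM : (2 : ℝ) ^ w ≤ ((2 ^ (k + 1) : ℕ) : ℝ) := by
    calc (2 : ℝ) ^ w ≤ (2 : ℝ) ^ (((k + 1 : ℕ) : ℝ)) := by
          apply Real.rpow_le_rpow_of_exponent_le (by norm_num)
          push_cast
          exact hwk.le
      _ = ((2 ^ (k + 1) : ℕ) : ℝ) := by
          rw [Real.rpow_natCast]
          push_cast
          ring
  have hmain := hPRM p q d b n k w₀ L S hp hq hpq (by omega) hbn hqk hkb hw₀b hLb
    (subset_AtK hkn hM hS hS2) π hπ hd hf hC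
  calc (2 : ℝ) ^ w ≤ (2 : ℝ) ^ (b : ℝ) := by
        apply Real.rpow_le_rpow_of_exponent_le (by norm_num)
        linarith
    _ = ((2 ^ b : ℕ) : ℝ) := by
        rw [Real.rpow_natCast]
        push_cast
        ring
    _ ≤ _ := by exact_mod_cast hmain

end Pool.Agent.L0h20.AS
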