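import Pool.Agent.L0h20.AS.Defs
import Pool.Agent.L0h20.SY.World
import Pool.Agent.L0h36.BF.Canon

set_option autoImplicit false

/-!
# Bounded-depth proofs over symmetric formulas: statements of the modules
-/

namespace Pool.Agent.L0h20.AS

open Pool.Agent.L0h36.BG Pool.Agent.L0h36.BF Pool.Agent.L0h20.SY

/-- The properties of the set of atoms which the stages use. -/
def Atomic {p : ℕ} {α : Type} (At : Set (Fml p α)) : Prop :=
  (∀ φ, Fml.neg φ ∈ At ↔ φ ∈ At) ∧ (∀ k f, Fml.and k f ∈ At → ∀ j, f j ∈ At) ∧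
  (∀ k f, Fml.or k f ∈ At → ∀ j, f j ∈ At) ∧ (∀ i k f, Fml.mod i k f ∈ At → ∀ j, f j ∈ At)

/-- Closed under immediate subformulas. -/
def ClosedS {p : ℕ} {α : Type} (Γ : Set (Fml p α)) : Prop :=
  (∀ φ, Fml.neg φ ∈ Γ → φ ∈ Γ) ∧ (∀ k f, Fml.and k f ∈ Γ → ∀ j, f j ∈ Γ) ∧
  (∀ k f, Fml.or k f ∈ Γ → ∀ j, f j ∈ Γ) ∧ (∀ i k f, Fml.mod i k f ∈ Γ → ∀ j, f j ∈ Γ)

open Classical in
/-- The maximal subformulas which are not disjunctions outside `At`, reached through disjunctions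
outside `At`. -/
noncomputable def orL {p : ℕ} {α : Type} (At : Set (Fml p α)) : Fml p α → Set (Fml p α)
  | .or k f => if Fml.or k f ∈ At then {Fml.or k f} else ⋃ j, orL At (f j)
  | .var x => {.var x}
  | .neg φ => {.neg φ}
  | .and k f => {.and k f}
  | .mod i k f => {.mod i k f}

open Classical in
/-- The same for conjunctions. -/
noncomputable def andL {p : ℕ} {α : Type} (At : Set (Fml p α)) : Fml p α → Set (Fml p α)
  | .and k f => if Fml.and k f ∈ At then {Fml.and k f} else ⋃ j, andL At (f j)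
  | .var x => {.var x}
  | .neg φ => {.neg φ}
  | .or k f => {.or k f}
  | .mod i k f => {.mod i k f}

/-- The trees `T` are locally correct at the formula (outside `At`), over the system `ρ`. -/
def LCa {p : ℕ} {V : Type} [DecidableEq V] (q : ℕ) (At : Set (Fml p (Finset V)))
    (T : Fml p (Finset V) → DT V) (ρ : Finset (Finset V)) : Fml p (Finset V) → Prop
  | .var _ => True
  | .neg φ => T (.neg φ) = (T φ).flip
  | .and k f => (∀ r, Br q (T (.and k f)) ρ r false →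
        ∃ ξ ∈ andL At (Fml.and k f), ∃ τ, Br q (T ξ) ρ τ false ∧ τ ⊆ r) ∧
      (∀ r, Br q (T (.and k f)) ρ r true →
        ∀ ξ ∈ andL At (Fml.and k f), ∀ τ, Br q (T ξ) ρ τ false → ¬ PM q (r ∪ τ))
  | .or k f => (∀ r, Br q (T (.or k f)) ρ r true →
        ∃ ξ ∈ orL At (Fml.or k f), ∃ τ, Br q (T ξ) ρ τ true ∧ τ ⊆ r) ∧
      (∀ r, Br q (T (.or k f)) ρ r false →
        ∀ ξ ∈ orL At (Fml.or k f), ∀ τ, Br q (T ξ) ρ τ true → ¬ PM q (r ∪ τ))
  | .mod i k f => ∀ r b, Br q (T (.mod i k f)) ρ r b → ∃ c : Fin k → Bool,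
        (∀ j, ∃ τ, Br q (T (f j)) ρ τ (c j) ∧ τ ⊆ r) ∧
        (b = true ↔ (∑ j, (if c j = true then (1 : ZMod p) else 0)) = i)

/-- STG: all stages of the evaluation of the formulas above the atoms. -/
def S_STG : Prop := ∀ (V : Type) [DecidableEq V] [Fintype V] (p q w : ℕ)
  (At : Set (Fml p (Finset V))) (Γ : Finset (Fml p (Finset V))), 1 ≤ q → Atomic At →
  ClosedS (Γ : Set (Fml p (Finset V))) →
  (∀ i k f, Fml.mod i k f ∈ Γ → Fml.mod i k f ∈ At ∨ k ≤ w) →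
  ∀ (t : ℕ → ℕ) (j0 : ℕ), (∀ h, q * j0 ≤ t h) → (∀ h, w * t h ≤ t (h + 1)) →
  (∀ h, t h ≤ t (h + 1)) → 2 * Γ.card < 2 ^ j0 →
  ∀ (A : ℕ → ℕ), A 1 = 0 →
  ∀ T₀ : Fml p (Finset V) → DT V,
  (∀ ψ ∈ Γ, sdepth At ψ = 0 → Dep q (T₀ ψ) ∅ (t 1)) →
  ∀ D : ℕ, (∀ h < D, 1 ≤ h → A h < A (h + 1)) →
  (∀ h < D, 1 ≤ h → q * A (h + 1) < Fintype.card V) →
  (∀ h < D, 1 ≤ h → 4 * (t h * ((Fintype.card V - q * A (h + 1)) ^ (q - 1)) ^ q) *
      (Fintype.card V - q * A (h + 1)) ^ q ≤ A (h + 1) - A h) →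
  ∀ h, 1 ≤ h → h ≤ D → ∃ ρ : Finset (Finset V), PM q ρ ∧ ρ.card = A h ∧
    ∃ T : Fml p (Finset V) → DT V, ∀ ψ ∈ Γ, sdepth At ψ < h →
      Dep q (T ψ) ρ (t h) ∧ (sdepth At ψ = 0 → T ψ = T₀ ψ) ∧ (ψ ∉ At → LCa q At T ρ ψ)

/-- SDM: the depth above a larger set is smaller. -/
def S_SDM : Prop := ∀ (p : ℕ) (α : Type) (S At : Set (Fml p α)), Atomic At → S ⊆ At →
  ∀ φ : Fml p α, sdepth At φ ≤ sdepth S φ

/-- The atoms: formulas all whose subformulas have a support of at most `k` points. -/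
def AtK (p n k : ℕ) : Set (Fml p (Finset (Fin n))) :=
  {φ | ∀ ψ ∈ φ.subs, ∃ B : Finset (Fin n), B.card ≤ k ∧ Sup Finset.univ B (cl ψ)}

/-- `P` is a partition into sets of size `q` of the points outside the set `R` of size `r₀`. -/
def Pseudo (q r₀ : ℕ) {n : ℕ} (P : Finset (Finset (Fin n))) (R : Finset (Fin n)) : Prop :=
  R.card = r₀ ∧ PM q P ∧ cov P = Finset.univ \ R

/-- EQV: the evaluation commutes with permutations. -/
def S_EQV : Prop := ∀ (p n k : ℕ) (R : Finset (Fin n)) (P : Finset (Finset (Fin n)))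
  (σ : Equiv.Perm (Fin n)) (φ : Fml p (Finset (Fin n))),
  (V Finset.univ (R.map σ.toEmbedding) k (P.image fun e => e.map σ.toEmbedding) (image σ φ) ↔
    V Finset.univ R k P φ)

/-- VAL: the value depends only on the sets which meet a support. -/
def S_VAL : Prop := ∀ (p q n k r₀ : ℕ) (P P' m : Finset (Finset (Fin n)))
  (R R' A : Finset (Fin n)) (φ : Fml p (Finset (Fin n))), 1 ≤ q →
  Pseudo q r₀ P R → Pseudo q r₀ P' R' → m ⊆ P → m ⊆ P' → A ⊆ cov m →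
  Sup Finset.univ A (cl φ) → (V Finset.univ R k P φ ↔ V Finset.univ R' k P' φ)

open Classical in
/-- A support of minimal size (if there is one of size at most `k`). -/
noncomputable def minS {p n : ℕ} (k : ℕ) (φ : Fml p (Finset (Fin n))) : Finset (Fin n) :=
  if h : ∃ B : Finset (Fin n), B.card ≤ k ∧ Sup Finset.univ B (cl φ) ∧
      ∀ B' : Finset (Fin n), B'.card ≤ k → Sup Finset.univ B' (cl φ) → B ⊆ B' then h.choose else ∅

open Classical in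
/-- The tree of an atom: query the points of the minimal support and give the value of the atom in
the partitions which extend the answers. Variables outside the atoms are false. -/
noncomputable def T0 {p n : ℕ} (q k r₀ : ℕ) (φ : Fml p (Finset (Fin n))) : DT (Fin n) :=
  if φ ∈ AtK p n k then queryAll (minS k φ).toList (fun m => .leaf (decide
    (∃ P R, Pseudo q r₀ P R ∧ m ⊆ P ∧ V Finset.univ R k P φ))) ∅ else .leaf false

/-- TRE: the properties of the trees of the atoms. -/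
def S_TRE : Prop := ∀ (p q n k r₀ : ℕ), 1 ≤ q → 2 * k < n →
  ∀ φ : Fml p (Finset (Fin n)), φ ∈ AtK p n k →
  ((minS k φ).card ≤ k ∧ Sup Finset.univ (minS k φ) (cl φ) ∧
    ∀ B' : Finset (Fin n), B'.card ≤ k → Sup Finset.univ B' (cl φ) → minS k φ ⊆ B') ∧
  (∀ ρ : Finset (Finset (Fin n)), PM q ρ → Dep q (T0 q k r₀ φ) ρ k) ∧
  (∀ (ρ m : Finset (Finset (Fin n))) (b : Bool), PM q ρ → Br q (T0 q k r₀ φ) ρ m b →
    minS k φ ⊆ cov m ∧ ∀ P R, Pseudo q r₀ P R → m ⊆ P → (b = true ↔ V Finset.univ R k P φ)) ∧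
  (∀ (ρ P : Finset (Finset (Fin n))) (R : Finset (Fin n)), Pseudo q r₀ P R → ρ ⊆ P →
    Disjoint (minS k φ) R → ∃ (m : Finset (Finset (Fin n))) (b : Bool),
      Br q (T0 q k r₀ φ) ρ m b ∧ m ⊆ P ∧ (b = true ↔ V Finset.univ R k P φ))

/-- ROO: a tree has a branch compatible with `r` if there is room. -/
def S_ROO : Prop := ∀ (q n t : ℕ) (T : DT (Fin n)) (ρ r : Finset (Finset (Fin n))), 1 ≤ q →
  PM q r → ρ ⊆ r → Dep q T ρ t → q * (r.card + t + 1) ≤ n →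
  ∃ (m : Finset (Finset (Fin n))) (b : Bool), Br q T ρ m b ∧ PM q (m ∪ r) ∧
    (m \ ρ).card ≤ t

/-- WLD: the truth assignment which belongs to a system `r`, outside of which there is enough
room. -/
def S_WLD : Prop := ∀ (p q n k l t : ℕ) (ρ r P : Finset (Finset (Fin n))) (R : Finset (Fin n))
  (c : Equiv.Perm (Fin n)) (T : Fml p (Finset (Fin n)) → DT (Fin n))
  (Γ : Set (Fml p (Finset (Fin n)))), p.Prime → 1 ≤ q →
  PermOf R c → c ^ (p ^ l) = 1 → k < p ^ l →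
  (∀ x ∈ R, ∀ i, 0 < i → i < p ^ l → (c ^ i) x ≠ x) →
  Pseudo q R.card P R → ρ ⊆ r → r ⊆ P →
  q * r.card + k + R.card ≤ n → q * (r.card + t + 1) ≤ n → 2 * k < n →
  ClosedS Γ → (∀ ψ ∈ Γ, Dep q (T ψ) ρ t) →
  (∀ ψ ∈ Γ, ψ ∈ AtK p n k → T ψ = T0 q k R.card ψ) →
  (∀ ψ ∈ Γ, ψ ∉ AtK p n k → LCa q (AtK p n k) T ρ ψ) →
  ∃ w : Fml p (Finset (Fin n)) → Prop,
    (∀ φ ∈ Γ, ∀ (m : Finset (Finset (Fin n))) (b : Bool), Br q (T φ) ρ m b → m ⊆ r →
      (w φ ↔ b = true)) ∧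
    ∀ ψ ∈ Γ, (∃ (m : Finset (Finset (Fin n))) (b : Bool), Br q (T ψ) ρ m b ∧ m ⊆ r) →
      Fml.CorrectAt w ψ

/-- CYR: a set `R` of a fixed size with a suitable permutation exists inside each sufficiently
large set of points. -/
def S_CYR : Prop := ∀ (p q n k : ℕ), p.Prime → 2 ≤ q → p.Coprime q → q * p * (k + 1) ≤ n →
  ∃ r₀ l : ℕ, r₀ ≤ q * p * (k + 1) ∧ k < p ^ l ∧ q ∣ n - r₀ ∧
    ∀ U : Finset (Fin n), r₀ + U.card ≤ n →
      ∃ (R : Finset (Fin n)) (c : Equiv.Perm (Fin n)), Disjoint R U ∧ R.card = r₀ ∧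
        PermOf R c ∧ c ^ (p ^ l) = 1 ∧ (∀ x ∈ R, ∀ i, 0 < i → i < p ^ l → (c ^ i) x ≠ x)

/-- CAT: the counting principle is an atom. -/
def S_CAT : Prop := ∀ (p q n k : ℕ), 1 ≤ q → 2 * q ≤ k → countFml p q n ∈ AtK p n k

/-- SND: the lines of a proof are true on all branches. -/
def S_SND : Prop := ∀ (p q n k L t r₀ l : ℕ) (ρ : Finset (Finset (Fin n)))
  (T : Fml p (Finset (Fin n)) → DT (Fin n)) (π : List (Fml p (Finset (Fin n)))), p.Prime →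
  1 ≤ q → k < p ^ l → q ∣ n - r₀ → r₀ ≤ n →
  (∀ U : Finset (Fin n), r₀ + U.card ≤ n →
      ∃ (R : Finset (Fin n)) (c : Equiv.Perm (Fin n)), Disjoint R U ∧ R.card = r₀ ∧
        PermOf R c ∧ c ^ (p ^ l) = 1 ∧ (∀ x ∈ R, ∀ i, 0 < i → i < p ^ l → (c ^ i) x ≠ x)) →
  PM q ρ → q * (ρ.card + (2 * L + 3) * (t + 1)) + k + r₀ ≤ n → 2 * k < n →
  (∀ ψ ∈ Occurring π, Dep q (T ψ) ρ t) →
  (∀ ψ ∈ Occurring π, ψ ∈ AtK p n k → T ψ = T0 q k r₀ ψ) →
  (∀ ψ ∈ Occurring π, ψ ∉ AtK p n k → LCa q (AtK p n k) T ρ ψ) →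
  IsProof L π → ∀ A ∈ π, ∀ (m : Finset (Finset (Fin n))) (b : Bool),
    Br q (T A) ρ m b → b = true

/-- The exponent. -/
def Rx (q d : ℕ) : ℕ := (d + 6) * (q ^ 2 + 2) ^ d

/-- The constant. -/
def Cx (p q d : ℕ) : ℕ := 100 * q ^ 2 * (p + 1) * 2 ^ (q ^ 2) + 100 * (d + 1)

/-- PRM: the lower bound with natural numbers as parameters. -/
def S_PRM : Prop := ∀ (p q d b n k w L : ℕ) (S : Set (Fml p (Finset (Fin n)))), p.Prime →
  2 ≤ q → p.Coprime q → Cx p q d ≤ b → b ^ Rx q d ≤ n → 2 * q ≤ k → k + 1 ≤ b → w ≤ b →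
  L + 1 ≤ b → S ⊆ AtK p n k →
  ∀ π : List (Fml p (Finset (Fin n))), IsProof L π → (∀ A ∈ π, sdepth S A ≤ d) →
  (∀ i m f, Fml.mod i m f ∈ Occurring π → Fml.mod i m f ∈ S ∨ m ≤ w) → countFml p q n ∈ π →
  2 ^ b ≤ (Occurring π).ncard

end Pool.Agent.L0h20.AS
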